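import Mathlib
import Pool.Agent.Helper12.LW.Defs
import Pool.Agent.Helper22.Sym.Selling

/-! Universal bound, module M2: a form with values at least `ω` on the nonzero integer vectors dominates `ω` times a
normalised form after a unimodular change of coordinates. -/

set_option autoImplicit false

namespace Pool.Agent.Helper28.LW

open Matrix Pool.Agent.Helper12.LW

/-- clipping at `±1/2` -/
noncomputable def clip (x : ℝ) : ℝ := max (-1 / 2) (min (1 / 2) x)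

theorem clip_cases (x : ℝ) :
    (x ≤ -1 / 2 ∧ clip x = -1 / 2) ∨ (-1 / 2 ≤ x ∧ x ≤ 1 / 2 ∧ clip x = x) ∨ (1 / 2 ≤ x ∧ clip x = 1 / 2) := by
  unfold clip
  rcases le_total x (-1 / 2) with h | h
  · left
    refine ⟨h, ?_⟩
    rw [min_eq_right (by linarith), max_eq_left h]
  · rcases le_total x (1 / 2) with h' | h'
    · right; left
      refine ⟨h, h', ?_⟩
      rw [min_eq_right h', max_eq_right h]
    · right; right
      refine ⟨h', ?_⟩
      rw [min_eq_left h', max_eq_right (by norm_num)]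

/-- The repair of one violated sum condition. -/
theorem core (a b c p q r : ℝ) (ha : 1 ≤ a) (hab : a ≤ b) (hbc : b ≤ c) (hp : |p| ≤ a / 2) (hq : |q| ≤ a / 2)
    (hr : |r| ≤ b / 2) (hsum : -(a + b) / 2 ≤ p + q + r)
    (hp0 : p ≤ 0) (hq0 : q ≤ 0) (hr0 : r ≤ 0)
    (hv : max (-1 / 2) p + max (-1 / 2) q + max (-1 / 2) r < -1) :
    ∃ α β γ : ℝ, InH α β γ ∧ |p - α| + |q - β| ≤ a - 1 ∧ |p - α| + |r - γ| ≤ b - 1 ∧
      |q - β| + |r - γ| ≤ c - 1 := by
  obtain ⟨α, hα, hα1, hα2, hα3⟩ : ∃ α : ℝ, α = max (-1 / 2) p ∧ -1 / 2 ≤ α ∧ p ≤ α ∧ (α = -1 / 2 ∨ α = p) :=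
    ⟨_, rfl, le_max_left _ _, le_max_right _ _, max_choice _ _⟩
  obtain ⟨β0, hβ, hβ1, hβ2, hβ3⟩ : ∃ β : ℝ, β = max (-1 / 2) q ∧ -1 / 2 ≤ β ∧ q ≤ β ∧ (β = -1 / 2 ∨ β = q) :=
    ⟨_, rfl, le_max_left _ _, le_max_right _ _, max_choice _ _⟩
  obtain ⟨γ0, hγ, hγ1, hγ2, hγ3⟩ : ∃ γ : ℝ, γ = max (-1 / 2) r ∧ -1 / 2 ≤ γ ∧ r ≤ γ ∧ (γ = -1 / 2 ∨ γ = r) :=
    ⟨_, rfl, le_max_left _ _, le_max_right _ _, max_choice _ _⟩
  rw [← hα, ← hβ, ← hγ] at hv
  obtain ⟨γ, hγm, hγ4, hγ5, hγ6⟩ : ∃ γ : ℝ, γ = max γ0 (-p - q - a) ∧ γ0 ≤ γ ∧ -p - q - a ≤ γ ∧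
      (γ = γ0 ∨ γ = -p - q - a) := ⟨_, rfl, le_max_left _ _, le_max_right _ _, max_choice _ _⟩
  have hp' := abs_le.1 hp
  have hq' := abs_le.1 hq
  have hr' := abs_le.1 hr
  have hα4 : α - p ≤ (a - 1) / 2 := by rcases hα3 with h | h <;> linarith [hp'.1]
  have hβ4 : β0 - q ≤ (a - 1) / 2 := by rcases hβ3 with h | h <;> linarith [hq'.1]
  have hγ7 : γ0 - r ≤ (b - 1) / 2 := by rcases hγ3 with h | h <;> linarith [hr'.1]
  have hβγ : β0 ≤ -1 - α - γ := by
    rcases hγ6 with h | h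
    · linarith
    · linarith
  refine ⟨α, -1 - α - γ, γ, ⟨?_, ?_, ?_, ?_, ?_, ?_, ?_⟩, ?_, ?_, ?_⟩
  · rw [abs_le]; constructor <;> linarith
  · rw [abs_le]; constructor <;> linarith
  · rw [abs_le]; constructor <;> linarith
  · linarith
  · linarith
  · linarith
  · linarith
  · rw [abs_of_nonpos (by linarith : p - α ≤ 0), abs_of_nonpos (by linarith : q - (-1 - α - γ) ≤ 0)]
    linarith
  · rw [abs_of_nonpos (by linarith : p - α ≤ 0), abs_of_nonpos (by linarith : r - γ ≤ 0)]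
    rcases hγ6 with h | h
    · linarith
    · linarith
  · rw [abs_of_nonpos (by linarith : q - (-1 - α - γ) ≤ 0), abs_of_nonpos (by linarith : r - γ ≤ 0)]
    linarith

/-- The choice of the normalised form. -/
theorem choice (a b c p q r : ℝ) (ha : 1 ≤ a) (hab : a ≤ b) (hbc : b ≤ c) (hp : |p| ≤ a / 2) (hq : |q| ≤ a / 2)
    (hr : |r| ≤ b / 2) (s1 : -(a + b) / 2 ≤ p + q + r) (s2 : -(a + b) / 2 ≤ p - q - r)
    (s3 : -(a + b) / 2 ≤ -p + q - r) (s4 : -(a + b) / 2 ≤ -p - q + r) :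
    ∃ α β γ : ℝ, InH α β γ ∧ |p - α| + |q - β| ≤ a - 1 ∧ |p - α| + |r - γ| ≤ b - 1 ∧
      |q - β| + |r - γ| ≤ c - 1 := by
  have hp' := abs_le.1 hp
  have hq' := abs_le.1 hq
  have hr' := abs_le.1 hr
  -- facts about the clipped numbers
  have key : ∀ (x m : ℝ), 1 ≤ m → |x| ≤ m / 2 → |clip x| ≤ 1 / 2 ∧ |x - clip x| ≤ (m - 1) / 2 := by
    intro x m hm hx
    have hx' := abs_le.1 hx
    rcases clip_cases x with ⟨h1, h2⟩ | ⟨h1, h2, h3⟩ | ⟨h1, h2⟩
    · rw [h2]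
      refine ⟨by rw [abs_le]; constructor <;> linarith, ?_⟩
      rw [abs_le]; constructor <;> linarith
    · rw [h3]
      refine ⟨by rw [abs_le]; constructor <;> linarith, ?_⟩
      rw [sub_self, abs_zero]; linarith
    · rw [h2]
      refine ⟨by rw [abs_le]; constructor <;> linarith, ?_⟩
      rw [abs_le]; constructor <;> linarith
  obtain ⟨kp1, kp2⟩ := key p a ha hp
  obtain ⟨kq1, kq2⟩ := key q a ha hq
  obtain ⟨kr1, kr2⟩ := key r b (by linarith) hr
  have kp := abs_le.1 kp1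
  have kq := abs_le.1 kq1
  have kr := abs_le.1 kr1
  -- a negative clipped number
  have neg : ∀ x : ℝ, clip x ≤ 0 → x ≤ 0 ∧ max (-1 / 2) x = clip x := by
    intro x hx
    rcases clip_cases x with ⟨h1, h2⟩ | ⟨h1, h2, h3⟩ | ⟨h1, h2⟩
    · exact ⟨by linarith, by rw [h2, max_eq_left h1]⟩
    · rw [h3] at hx ⊢
      exact ⟨hx, max_eq_right h1⟩
    · rw [h2] at hx; exact absurd hx (by norm_num)
  have clip_neg : ∀ x : ℝ, clip (-x) = -clip x := by
    intro x
    rcases clip_cases x with ⟨h1, h2⟩ | ⟨h1, h2, h3⟩ | ⟨h1, h2⟩ <;>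
      rcases clip_cases (-x) with ⟨g1, g2⟩ | ⟨g1, g2, g3⟩ | ⟨g1, g2⟩ <;> linarith
  by_cases v1 : clip p + clip q + clip r < -1
  · obtain ⟨np, mp⟩ := neg p (by linarith)
    obtain ⟨nq, mq⟩ := neg q (by linarith)
    obtain ⟨nr, mr⟩ := neg r (by linarith)
    exact core a b c p q r ha hab hbc hp hq hr s1 np nq nr (by rw [mp, mq, mr]; exact v1)
  by_cases v2 : clip p - clip q - clip r < -1
  · obtain ⟨np, mp⟩ := neg p (by linarith)
    obtain ⟨nq, mq⟩ := neg (-q) (by rw [clip_neg]; linarith)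
    obtain ⟨nr, mr⟩ := neg (-r) (by rw [clip_neg]; linarith)
    obtain ⟨α, β, γ, ⟨i1, i2, i3, i4, i5, i6, i7⟩, d1, d2, d3⟩ :=
      core a b c p (-q) (-r) ha hab hbc hp (by rw [abs_neg]; exact hq) (by rw [abs_neg]; exact hr)
        (by linarith) np nq nr (by rw [mp, mq, mr, clip_neg, clip_neg]; linarith)
    have e1 : |q - -β| = |-q - β| := by rw [← abs_neg]; congr 1; ring
    have e2 : |r - -γ| = |-r - γ| := by rw [← abs_neg]; congr 1; ring
    refine ⟨α, -β, -γ, ⟨i1, by rw [abs_neg]; exact i2, by rw [abs_neg]; exact i3, by linarith, by linarith,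
      by linarith, by linarith⟩, ?_, ?_, ?_⟩
    · rw [e1]; exact d1
    · rw [e2]; exact d2
    · rw [e1, e2]; exact d3
  by_cases v3 : -clip p + clip q - clip r < -1
  · obtain ⟨np, mp⟩ := neg (-p) (by rw [clip_neg]; linarith)
    obtain ⟨nq, mq⟩ := neg q (by linarith)
    obtain ⟨nr, mr⟩ := neg (-r) (by rw [clip_neg]; linarith)
    obtain ⟨α, β, γ, ⟨i1, i2, i3, i4, i5, i6, i7⟩, d1, d2, d3⟩ :=
      core a b c (-p) q (-r) ha hab hbc (by rw [abs_neg]; exact hp) hq (by rw [abs_neg]; exact hr)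
        (by linarith) np nq nr (by rw [mp, mq, mr, clip_neg, clip_neg]; linarith)
    have e1 : |p - -α| = |-p - α| := by rw [← abs_neg]; congr 1; ring
    have e2 : |r - -γ| = |-r - γ| := by rw [← abs_neg]; congr 1; ring
    refine ⟨-α, β, -γ, ⟨by rw [abs_neg]; exact i1, i2, by rw [abs_neg]; exact i3, by linarith, by linarith,
      by linarith, by linarith⟩, ?_, ?_, ?_⟩
    · rw [e1]; exact d1
    · rw [e1, e2]; exact d2
    · rw [e2]; exact d3
  by_cases v4 : -clip p - clip q + clip r < -1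
  · obtain ⟨np, mp⟩ := neg (-p) (by rw [clip_neg]; linarith)
    obtain ⟨nq, mq⟩ := neg (-q) (by rw [clip_neg]; linarith)
    obtain ⟨nr, mr⟩ := neg r (by linarith)
    obtain ⟨α, β, γ, ⟨i1, i2, i3, i4, i5, i6, i7⟩, d1, d2, d3⟩ :=
      core a b c (-p) (-q) r ha hab hbc (by rw [abs_neg]; exact hp) (by rw [abs_neg]; exact hq) hr
        (by linarith) np nq nr (by rw [mp, mq, mr, clip_neg, clip_neg]; linarith)
    have e1 : |p - -α| = |-p - α| := by rw [← abs_neg]; congr 1; ring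
    have e2 : |q - -β| = |-q - β| := by rw [← abs_neg]; congr 1; ring
    refine ⟨-α, -β, γ, ⟨by rw [abs_neg]; exact i1, by rw [abs_neg]; exact i2, i3, by linarith, by linarith,
      by linarith, by linarith⟩, ?_, ?_, ?_⟩
    · rw [e1, e2]; exact d1
    · rw [e1]; exact d2
    · rw [e2]; exact d3
  refine ⟨clip p, clip q, clip r, ⟨kp1, kq1, kr1, by linarith, by linarith, by linarith, by linarith⟩, ?_, ?_, ?_⟩
  · linarith
  · linarith
  · linarith

/-- Domination from diagonal dominance. -/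
theorem dominate (a b c p q r α β γ : ℝ) (h1 : |p - α| + |q - β| ≤ a - 1) (h2 : |p - α| + |r - γ| ≤ b - 1)
    (h3 : |q - β| + |r - γ| ≤ c - 1) (x y z : ℝ) :
    x ^ 2 + y ^ 2 + z ^ 2 + 2 * α * (x * y) + 2 * β * (x * z) + 2 * γ * (y * z) ≤
      a * x ^ 2 + b * y ^ 2 + c * z ^ 2 + 2 * p * (x * y) + 2 * q * (x * z) + 2 * r * (y * z) := by
  have key : ∀ t u v : ℝ, -(|t| * (u ^ 2 + v ^ 2)) ≤ 2 * t * (u * v) := by
    intro t u v
    have h5 : |2 * t * (u * v)| ≤ |t| * (u ^ 2 + v ^ 2) := by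
      rw [abs_mul, abs_mul, abs_mul, abs_two]
      have h6 : 2 * (|u| * |v|) ≤ u ^ 2 + v ^ 2 := by
        rw [← sq_abs u, ← sq_abs v]
        nlinarith [sq_nonneg (|u| - |v|)]
      have h7 := mul_le_mul_of_nonneg_left h6 (abs_nonneg t)
      linarith
    exact (abs_le.1 h5).1
  have k1 := key (p - α) x y
  have k2 := key (q - β) x z
  have k3 := key (r - γ) y z
  have m1 := mul_le_mul_of_nonneg_right h1 (sq_nonneg x)
  have m2 := mul_le_mul_of_nonneg_right h2 (sq_nonneg y)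
  have m3 := mul_le_mul_of_nonneg_right h3 (sq_nonneg z)
  nlinarith

open Pool.Agent.Helper22.Sym (bil)

/-- the total length of a basis -/
noncomputable def tot (A : Matrix (Fin 3) (Fin 3) ℝ) (U : Matrix (Fin 3) (Fin 3) ℤ) : ℝ := ∑ i, bil A (U i) (U i)

theorem tot_update (A : Matrix (Fin 3) (Fin 3) ℝ) (U : Matrix (Fin 3) (Fin 3) ℤ) (j : Fin 3) (r : Fin 3 → ℤ) :
    tot A (U.updateRow j r) = tot A U - bil A (U j) (U j) + bil A r r := by
  unfold tot
  rw [← Finset.add_sum_erase _ _ (Finset.mem_univ j), ← Finset.add_sum_erase _ (fun i => bil A (U i) (U i)) (Finset.mem_univ j)]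
  have h1 : U.updateRow j r j = r := by simp
  rw [h1]
  have h2 : ∑ i ∈ Finset.univ.erase j, bil A (U.updateRow j r i) (U.updateRow j r i) =
      ∑ i ∈ Finset.univ.erase j, bil A (U i) (U i) := by
    refine Finset.sum_congr rfl fun i hi => ?_
    rw [Finset.mem_erase] at hi
    rw [Matrix.updateRow_ne hi.1]
  rw [h2]
  ring

/-- A basis of minimal total length with increasing lengths. -/
theorem exists_min (A : Matrix (Fin 3) (Fin 3) ℝ) (hA : A.PosDef) :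
    ∃ U : Matrix (Fin 3) (Fin 3) ℤ, IsUnit U.det ∧
      (∀ V : Matrix (Fin 3) (Fin 3) ℤ, IsUnit V.det → tot A U ≤ tot A V) ∧
      Monotone (fun i => bil A (U i) (U i)) := by
  have hq : ∀ z : Fin 3 → ℤ, 0 ≤ bil A z z := by
    intro z
    have := hA.posSemidef.dotProduct_mulVec_nonneg (Pool.Agent.Helper22.Sym.toR z)
    rw [star_trivial] at this
    exact this
  have hfin : {U : Matrix (Fin 3) (Fin 3) ℤ | IsUnit U.det ∧ tot A U ≤ tot A 1}.Finite := by
    refine (Set.Finite.pi' (t := fun _ : Fin 3 => {z : Fin 3 → ℤ | bil A z z ≤ tot A 1})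
      (fun _ => Pool.Agent.Helper22.Sym.sublevel_finite hA _)).subset ?_
    intro U hU i
    exact (Finset.single_le_sum (f := fun l => bil A (U l) (U l)) (fun l _ => hq (U l))
      (Finset.mem_univ i)).trans hU.2
  obtain ⟨U0, ⟨hU0, hU0t⟩, hmin⟩ := Set.exists_min_image _ (tot A) hfin ⟨1, by simp, le_rfl⟩
  have hmin' : ∀ V : Matrix (Fin 3) (Fin 3) ℤ, IsUnit V.det → tot A U0 ≤ tot A V := by
    intro V hV
    by_cases h : tot A V ≤ tot A 1
    · exact hmin V ⟨hV, h⟩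
    · exact hU0t.trans (not_le.1 h).le
  let σ : Equiv.Perm (Fin 3) := Tuple.sort (fun i => bil A (U0 i) (U0 i))
  refine ⟨U0.submatrix σ id, ?_, ?_, ?_⟩
  · rw [Matrix.det_permute]
    refine IsUnit.mul ?_ hU0
    exact (Equiv.Perm.sign σ).isUnit.map (Int.castRingHom ℤ)
  · intro V hV
    have h1 : tot A (U0.submatrix σ id) = tot A U0 := by
      unfold tot
      exact Equiv.sum_comp σ (fun i => bil A (U0 i) (U0 i))
    rw [h1]
    exact hmin' V hV
  · exact Tuple.monotone_sort (fun i => bil A (U0 i) (U0 i))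

theorem det_two (U : Matrix (Fin 3) (Fin 3) ℤ) {j i : Fin 3} (hij : j ≠ i) (c : ℤ) :
    (U.updateRow j (U j + c • U i)).det = U.det := Matrix.det_updateRow_add_smul_self U hij c

/-- **M2 (reduction).** -/
theorem reduce (A : Matrix (Fin 3) (Fin 3) ℝ) (hA : A.PosDef) (ω : ℝ) (hω : 0 < ω)
    (h : ∀ y : Fin 3 → ℤ, y ≠ 0 → ω ≤ qf A (Pool.Agent.Helper12.LW.toR y)) :
    ∃ (U : Matrix (Fin 3) (Fin 3) ℤ) (α β γ : ℝ), IsUnit U.det ∧ InH α β γ ∧
      ∀ v : Fin 3 → ℝ, ω * qf (Mm α β γ) v ≤ qf A ((U.map (Int.cast : ℤ → ℝ))ᵀ *ᵥ v) := by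
  obtain ⟨U, hU, hmin, hmono⟩ := exists_min A hA
  have hsym : ∀ x y : Fin 3 → ℤ, bil A x y = bil A y x := fun x y => Pool.Agent.Helper22.Sym.bil_comm hA x y
  -- minimality for a single row
  have one : ∀ (j i : Fin 3), j ≠ i → ∀ c : ℤ,
      bil A (U j) (U j) ≤ bil A (U j + c • U i) (U j + c • U i) := by
    intro j i hji c
    have h1 := hmin (U.updateRow j (U j + c • U i)) (by rw [det_two U hji c]; exact hU)
    rw [tot_update] at h1
    linarith
  have two : ∀ (c d : ℤ), bil A (U 2) (U 2) ≤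
      bil A (U 2 + c • U 0 + d • U 1) (U 2 + c • U 0 + d • U 1) := by
    intro c d
    let V := U.updateRow 2 (U 2 + c • U 0)
    have hV : V.det = U.det := det_two U (by decide) c
    have hV2 : V 2 = U 2 + c • U 0 := by simp [V]
    have hV1 : V 1 = U 1 := Matrix.updateRow_ne (by decide)
    have h1 := hmin (V.updateRow 2 (V 2 + d • V 1)) (by rw [det_two V (by decide) d, hV]; exact hU)
    rw [tot_update, hV2, hV1, tot_update] at h1
    linarith
  -- expansion of the form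
  have ex1 : ∀ (x y : Fin 3 → ℤ), bil A (x + (1:ℤ) • y) (x + (1:ℤ) • y) = bil A x x + 2 * bil A x y + bil A y y := by
    intro x y
    rw [one_smul, Pool.Agent.Helper22.Sym.bil_add_left, Pool.Agent.Helper22.Sym.bil_add_right,
      Pool.Agent.Helper22.Sym.bil_add_right, hsym y x]
    ring
  have ex2 : ∀ (x y : Fin 3 → ℤ), bil A (x + (-1:ℤ) • y) (x + (-1:ℤ) • y) = bil A x x - 2 * bil A x y + bil A y y := by
    intro x y
    rw [neg_smul, one_smul, Pool.Agent.Helper22.Sym.bil_add_left, Pool.Agent.Helper22.Sym.bil_add_right,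
      Pool.Agent.Helper22.Sym.bil_add_right, Pool.Agent.Helper22.Sym.bil_neg_left,
      Pool.Agent.Helper22.Sym.bil_neg_left, Pool.Agent.Helper22.Sym.bil_neg_right,
      Pool.Agent.Helper22.Sym.bil_neg_right, hsym y x]
    ring
  have pr : ∀ (j i : Fin 3), j ≠ i → |bil A (U j) (U i)| ≤ bil A (U i) (U i) / 2 := by
    intro j i hji
    have h1 := one j i hji 1
    have h2 := one j i hji (-1)
    rw [ex1] at h1
    rw [ex2] at h2
    rw [abs_le]; constructor <;> linarith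
  have ad : ∀ x y z : Fin 3 → ℤ, bil A (x + (1:ℤ) • y) z = bil A x z + bil A y z := by
    intro x y z; rw [one_smul, Pool.Agent.Helper22.Sym.bil_add_left]
  have sb : ∀ x y z : Fin 3 → ℤ, bil A (x + (-1:ℤ) • y) z = bil A x z - bil A y z := by
    intro x y z
    rw [neg_smul, one_smul, Pool.Agent.Helper22.Sym.bil_add_left, Pool.Agent.Helper22.Sym.bil_neg_left]; ring
  have t1 := two 1 1
  have t2 := two 1 (-1)
  have t3 := two (-1) 1
  have t4 := two (-1) (-1)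
  rw [ex1, ex1, ad, hsym (U 2) (U 0), hsym (U 2) (U 1)] at t1
  rw [ex2, ex1, ad, hsym (U 2) (U 0), hsym (U 2) (U 1)] at t2
  rw [ex1, ex2, sb, hsym (U 2) (U 0), hsym (U 2) (U 1)] at t3
  rw [ex2, ex2, sb, hsym (U 2) (U 0), hsym (U 2) (U 1)] at t4
  have hne : ∀ i, U i ≠ 0 := by
    intro i hi
    have : U.det = 0 := Matrix.det_eq_zero_of_row_eq_zero i (fun j => congrFun hi j)
    rw [this] at hU
    exact not_isUnit_zero hU
  have hdiag : ∀ i, ω ≤ bil A (U i) (U i) := fun i => h (U i) (hne i)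
  have hm01 : bil A (U 0) (U 0) ≤ bil A (U 1) (U 1) := hmono (by decide : (0 : Fin 3) ≤ 1)
  have hm12 : bil A (U 1) (U 1) ≤ bil A (U 2) (U 2) := hmono (by decide : (1 : Fin 3) ≤ 2)
  have p01 := pr 1 0 (by decide)
  rw [hsym (U 1) (U 0)] at p01
  have p02 := pr 2 0 (by decide)
  rw [hsym (U 2) (U 0)] at p02
  have p12 := pr 2 1 (by decide)
  rw [hsym (U 2) (U 1)] at p12
  -- scaled entries
  obtain ⟨a, ha⟩ : ∃ a, bil A (U 0) (U 0) = ω * a := ⟨bil A (U 0) (U 0) / ω, by field_simp⟩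
  obtain ⟨b, hb⟩ : ∃ b, bil A (U 1) (U 1) = ω * b := ⟨bil A (U 1) (U 1) / ω, by field_simp⟩
  obtain ⟨c, hc⟩ : ∃ c, bil A (U 2) (U 2) = ω * c := ⟨bil A (U 2) (U 2) / ω, by field_simp⟩
  obtain ⟨p, hp⟩ : ∃ p, bil A (U 0) (U 1) = ω * p := ⟨bil A (U 0) (U 1) / ω, by field_simp⟩
  obtain ⟨q, hq⟩ : ∃ q, bil A (U 0) (U 2) = ω * q := ⟨bil A (U 0) (U 2) / ω, by field_simp⟩
  obtain ⟨r, hr⟩ : ∃ r, bil A (U 1) (U 2) = ω * r := ⟨bil A (U 1) (U 2) / ω, by field_simp⟩
  have h0 := hdiag 0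
  rw [ha] at h0 hm01 p01 p02 t1 t2 t3 t4
  rw [hb] at hm01 hm12 p12 t1 t2 t3 t4
  rw [hc] at hm12 t1 t2 t3 t4
  rw [hp] at p01 t1 t2 t3 t4
  rw [hq] at p02 t1 t2 t3 t4
  rw [hr] at p12 t1 t2 t3 t4
  have ha1 : 1 ≤ a := by
    by_contra hcon
    have : ω * a < ω * 1 := mul_lt_mul_of_pos_left (not_le.1 hcon) hω
    linarith
  have hab : a ≤ b := le_of_mul_le_mul_left hm01 hω
  have hbc : b ≤ c := le_of_mul_le_mul_left hm12 hω
  have hp1 : |p| ≤ a / 2 := by
    rw [abs_mul, abs_of_pos hω] at p01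
    exact le_of_mul_le_mul_left (by linarith) hω
  have hq1 : |q| ≤ a / 2 := by
    rw [abs_mul, abs_of_pos hω] at p02
    exact le_of_mul_le_mul_left (by linarith) hω
  have hr1 : |r| ≤ b / 2 := by
    rw [abs_mul, abs_of_pos hω] at p12
    exact le_of_mul_le_mul_left (by linarith) hω
  have s1 : -(a + b) / 2 ≤ p + q + r := le_of_mul_le_mul_left (by linarith) hω
  have s3 : -(a + b) / 2 ≤ -p + q - r := le_of_mul_le_mul_left (by linarith) hω
  have s4 : -(a + b) / 2 ≤ -p - q + r := le_of_mul_le_mul_left (by linarith) hω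
  have s2 : -(a + b) / 2 ≤ p - q - r := le_of_mul_le_mul_left (by linarith) hω
  obtain ⟨α, β, γ, hH, d1, d2, d3⟩ := choice a b c p q r ha1 hab hbc hp1 hq1 hr1 s1 s2 s3 s4
  refine ⟨U, α, β, γ, hU, hH, fun v => ?_⟩
  have hdom := dominate a b c p q r α β γ d1 d2 d3 (v 0) (v 1) (v 2)
  have hM : qf (Mm α β γ) v = v 0 ^ 2 + v 1 ^ 2 + v 2 ^ 2 + 2 * α * (v 0 * v 1) + 2 * β * (v 0 * v 2) +
      2 * γ * (v 1 * v 2) := by
    simp [qf, Mm, dotProduct, Matrix.mulVec, Fin.sum_univ_three]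
    ring
  have hAe : ∀ i j, A i j = A j i := by
    intro i j
    have := hA.1.apply i j
    simpa using this.symm
  have hQ : qf A ((U.map (Int.cast : ℤ → ℝ))ᵀ *ᵥ v) = bil A (U 0) (U 0) * v 0 ^ 2 + bil A (U 1) (U 1) * v 1 ^ 2 +
      bil A (U 2) (U 2) * v 2 ^ 2 + 2 * bil A (U 0) (U 1) * (v 0 * v 1) + 2 * bil A (U 0) (U 2) * (v 0 * v 2) +
      2 * bil A (U 1) (U 2) * (v 1 * v 2) := by
    simp only [qf, bil, Pool.Agent.Helper22.Sym.toR, dotProduct, Matrix.mulVec, Matrix.transpose_apply,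
      Matrix.map_apply, Fin.sum_univ_three]
    rw [hAe 1 0, hAe 2 0, hAe 2 1]
    ring
  rw [hQ, hM, ha, hb, hc, hp, hq, hr]
  have h9 := mul_le_mul_of_nonneg_left hdom hω.le
  linarith

end Pool.Agent.Helper28.LW
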