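import Mathlib
import Pool.Agent.Helper12.LW.Cell
import Pool.Agent.Helper24.LW.Sector

/-! Splitting of cells, and the three root cells which cover the two sectors. -/

set_option autoImplicit false

namespace Pool.Agent.Helper28.LW

open Pool.Agent.Helper12.LW

theorem sum_upd (i j : Fin 4) (hij : i ≠ j) (lam g : Fin 4 → ℝ) (x : ℝ)
    (hx : 2 * x = g i + g j) :
    ∑ c, (if c = i then 2 * lam i else if c = j then lam j - lam i else lam c) *
      (if c = i then x else g c) = ∑ c, lam c * g c := by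
  have h1 : ∀ c, (if c = i then 2 * lam i else if c = j then lam j - lam i else lam c) *
      (if c = i then x else g c) - lam c * g c =
      (if c = i then 2 * lam i * x - lam i * g i else 0) +
      (if c = j then - (lam i * g j) else 0) := by
    intro c
    by_cases hi : c = i
    · subst hi
      rw [if_pos rfl, if_pos rfl, if_pos rfl, if_neg hij]
      ring
    · by_cases hj : c = j
      · subst hj
        rw [if_neg hi, if_neg hi, if_neg hi, if_pos rfl, if_pos rfl]
        ring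
      · rw [if_neg hi, if_neg hi, if_neg hi, if_neg hj, if_neg hj]
        ring
  rw [← sub_eq_zero, ← Finset.sum_sub_distrib, Finset.sum_congr rfl fun c _ => h1 c,
    Finset.sum_add_distrib, Finset.sum_ite_eq' Finset.univ i, Finset.sum_ite_eq' Finset.univ j,
    if_pos (Finset.mem_univ _), if_pos (Finset.mem_univ _)]
  have : 2 * lam i * x = lam i * (g i + g j) := by rw [← hx]; ring
  rw [this]
  ring

theorem inCell_upd (cs : Fin 4 → V3) (i j : Fin 4) (hij : i ≠ j) (m : V3)
    (ha : 2 * m.a = (cs i).a + (cs j).a) (hb : 2 * m.b = (cs i).b + (cs j).b)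
    (hc : 2 * m.c = (cs i).c + (cs j).c) (lam : Fin 4 → ℝ) (X Y Z : ℝ)
    (h : InCell cs lam X Y Z) (hle : lam i ≤ lam j) :
    InCell (Function.update cs i m)
      (fun c => if c = i then 2 * lam i else if c = j then lam j - lam i else lam c) X Y Z := by
  have ha' : 2 * ((m.a : ℝ) / 96) = ((cs i).a : ℝ) / 96 + ((cs j).a : ℝ) / 96 := by
    have : (2 : ℝ) * (m.a : ℝ) = ((cs i).a : ℝ) + ((cs j).a : ℝ) := by exact_mod_cast ha
    linarith
  have hb' : 2 * ((m.b : ℝ) / 96) = ((cs i).b : ℝ) / 96 + ((cs j).b : ℝ) / 96 := by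
    have : (2 : ℝ) * (m.b : ℝ) = ((cs i).b : ℝ) + ((cs j).b : ℝ) := by exact_mod_cast hb
    linarith
  have hc' : 2 * ((m.c : ℝ) / 96) = ((cs i).c : ℝ) / 96 + ((cs j).c : ℝ) / 96 := by
    have : (2 : ℝ) * (m.c : ℝ) = ((cs i).c : ℝ) + ((cs j).c : ℝ) := by exact_mod_cast hc
    linarith
  refine ⟨?_, ?_, ?_, ?_, ?_⟩
  · intro c
    have h1 := h.nonneg c
    have h2 := h.nonneg i
    by_cases hi : c = i
    · simp only [hi, if_true]
      linarith
    · by_cases hj : c = j
      · simp only [hj, if_true]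
        have : ¬ j = i := fun e => hij e.symm
        simp only [this, if_false]
        linarith
      · simp only [hi, hj, if_false]
        exact h1
  · have h1 := sum_upd i j hij lam (fun _ => 1) 1 (by norm_num)
    have h2 := h.sum
    simp only [ite_self, mul_one] at h1
    rw [h1, h2]
  · have h1 := sum_upd i j hij lam (fun c => ((cs c).a : ℝ) / 96) ((m.a : ℝ) / 96) ha'
    rw [h.eX, ← h1]
    refine Finset.sum_congr rfl fun c _ => ?_
    by_cases hi : c = i
    · subst hi
      simp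
    · simp only [hi, if_false, Function.update_of_ne hi]
  · have h1 := sum_upd i j hij lam (fun c => ((cs c).b : ℝ) / 96) ((m.b : ℝ) / 96) hb'
    rw [h.eY, ← h1]
    refine Finset.sum_congr rfl fun c _ => ?_
    by_cases hi : c = i
    · subst hi
      simp
    · simp only [hi, if_false, Function.update_of_ne hi]
  · have h1 := sum_upd i j hij lam (fun c => ((cs c).c : ℝ) / 96) ((m.c : ℝ) / 96) hc'
    rw [h.eZ, ← h1]
    refine Finset.sum_congr rfl fun c _ => ?_
    by_cases hi : c = i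
    · subst hi
      simp
    · simp only [hi, if_false, Function.update_of_ne hi]

/-- a good cell at level `mu` -/
def GoodAt (mu : ℝ) (cs : Fin 4 → V3) : Prop :=
  ∀ (lam : Fin 4 → ℝ) (X Y Z : ℝ), InCell cs lam X Y Z → ∀ K : Set (Fin 3 → ℝ), LFree K →
    ¬ PosAt K (Mm X Y Z) mu

/-- **Splitting of a cell at the midpoint of an edge.** -/
theorem goodAt_split (mu : ℝ) (cs : Fin 4 → V3) (i j : Fin 4) (hij : i ≠ j) (m : V3)
    (ha : 2 * m.a = (cs i).a + (cs j).a) (hb : 2 * m.b = (cs i).b + (cs j).b)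
    (hc : 2 * m.c = (cs i).c + (cs j).c) (h1 : GoodAt mu (Function.update cs i m))
    (h2 : GoodAt mu (Function.update cs j m)) : GoodAt mu cs := by
  intro lam X Y Z h
  rcases le_total (lam i) (lam j) with hle | hle
  · exact h1 _ X Y Z (inCell_upd cs i j hij m ha hb hc lam X Y Z h hle)
  · exact h2 _ X Y Z (inCell_upd cs j i hij.symm m (by linarith) (by linarith) (by linarith)
      lam X Y Z h hle)

/-- **Splitting of a cell at the midpoint of an edge.** -/
theorem good_split (cs : Fin 4 → V3) (i j : Fin 4) (hij : i ≠ j) (m : V3)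
    (ha : 2 * m.a = (cs i).a + (cs j).a) (hb : 2 * m.b = (cs i).b + (cs j).b)
    (hc : 2 * m.c = (cs i).c + (cs j).c) (h1 : Good (Function.update cs i m))
    (h2 : Good (Function.update cs j m)) : Good cs :=
  goodAt_split (100 / 507) cs i j hij m ha hb hc h1 h2

/-- root cell of the positive sector -/
def R0 : Fin 4 → V3 := ![⟨0, 0, 0⟩, ⟨48, 0, 0⟩, ⟨48, 48, 0⟩, ⟨48, 48, 48⟩]

/-- first root cell of the negative sector -/
def R1 : Fin 4 → V3 := ![⟨0, 0, 0⟩, ⟨-48, 0, 0⟩, ⟨-48, -24, -24⟩, ⟨-48, -48, 0⟩]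

/-- second root cell of the negative sector -/
def R2 : Fin 4 → V3 := ![⟨0, 0, 0⟩, ⟨-48, -24, -24⟩, ⟨-32, -32, -32⟩, ⟨-48, -48, 0⟩]

/-- **The three root cells cover the two sectors.** -/
theorem sector_goodAt (mu : ℝ) (h0 : GoodAt mu R0) (h1 : GoodAt mu R1) (h2 : GoodAt mu R2) :
    ∀ al be ga : ℝ, Pool.Agent.Helper24.LW.Sector al be ga → ∀ K : Set (Fin 3 → ℝ), LFree K →
      ¬ PosAt K (Mm al be ga) mu := by
  intro al be ga hs
  rcases hs with ⟨a1, a2, a3, a4⟩ | ⟨a1, a2, a3, a4, a5⟩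
  · refine h0 ![1 - 2 * al, 2 * (al - be), 2 * (be - ga), 2 * ga] al be ga ⟨?_, ?_, ?_, ?_, ?_⟩
    · intro c
      fin_cases c
      · show (0 : ℝ) ≤ 1 - 2 * al
        linarith
      · show (0 : ℝ) ≤ 2 * (al - be)
        linarith
      · show (0 : ℝ) ≤ 2 * (be - ga)
        linarith
      · show (0 : ℝ) ≤ 2 * ga
        linarith
    · rw [Fin.sum_univ_four]
      show (1 - 2 * al) + 2 * (al - be) + 2 * (be - ga) + 2 * ga = 1
      ring
    · rw [Fin.sum_univ_four]
      show al = (1 - 2 * al) * (((0 : ℤ) : ℝ) / 96) + 2 * (al - be) * (((48 : ℤ) : ℝ) / 96)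
        + 2 * (be - ga) * (((48 : ℤ) : ℝ) / 96) + 2 * ga * (((48 : ℤ) : ℝ) / 96)
      push_cast
      ring
    · rw [Fin.sum_univ_four]
      show be = (1 - 2 * al) * (((0 : ℤ) : ℝ) / 96) + 2 * (al - be) * (((0 : ℤ) : ℝ) / 96)
        + 2 * (be - ga) * (((48 : ℤ) : ℝ) / 96) + 2 * ga * (((48 : ℤ) : ℝ) / 96)
      push_cast
      ring
    · rw [Fin.sum_univ_four]
      show ga = (1 - 2 * al) * (((0 : ℤ) : ℝ) / 96) + 2 * (al - be) * (((0 : ℤ) : ℝ) / 96)
        + 2 * (be - ga) * (((0 : ℤ) : ℝ) / 96) + 2 * ga * (((48 : ℤ) : ℝ) / 96)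
      push_cast
      ring
  · rcases le_total (-be + -ga) (-al) with h | h
    · refine h1 ![1 - 2 * (-al), 2 * (-al - -be - -ga), 4 * (-ga), 2 * (-be - -ga)] al be ga
        ⟨?_, ?_, ?_, ?_, ?_⟩
      · intro c
        fin_cases c
        · show (0 : ℝ) ≤ 1 - 2 * (-al)
          linarith
        · show (0 : ℝ) ≤ 2 * (-al - -be - -ga)
          linarith
        · show (0 : ℝ) ≤ 4 * (-ga)
          linarith
        · show (0 : ℝ) ≤ 2 * (-be - -ga)
          linarith
      · rw [Fin.sum_univ_four]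
        show (1 - 2 * (-al)) + 2 * (-al - -be - -ga) + 4 * (-ga) + 2 * (-be - -ga) = 1
        ring
      · rw [Fin.sum_univ_four]
        show al = (1 - 2 * (-al)) * (((0 : ℤ) : ℝ) / 96)
          + 2 * (-al - -be - -ga) * (((-48 : ℤ) : ℝ) / 96)
          + 4 * (-ga) * (((-48 : ℤ) : ℝ) / 96) + 2 * (-be - -ga) * (((-48 : ℤ) : ℝ) / 96)
        push_cast
        ring
      · rw [Fin.sum_univ_four]
        show be = (1 - 2 * (-al)) * (((0 : ℤ) : ℝ) / 96)
          + 2 * (-al - -be - -ga) * (((0 : ℤ) : ℝ) / 96)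
          + 4 * (-ga) * (((-24 : ℤ) : ℝ) / 96) + 2 * (-be - -ga) * (((-48 : ℤ) : ℝ) / 96)
        push_cast
        ring
      · rw [Fin.sum_univ_four]
        show ga = (1 - 2 * (-al)) * (((0 : ℤ) : ℝ) / 96)
          + 2 * (-al - -be - -ga) * (((0 : ℤ) : ℝ) / 96)
          + 4 * (-ga) * (((-24 : ℤ) : ℝ) / 96) + 2 * (-be - -ga) * (((0 : ℤ) : ℝ) / 96)
        push_cast
        ring
    · refine h2 ![1 - (-al) - (-be) - (-ga), 4 * (-al - -be), 3 * (-be + -ga - -al),
        2 * (-be - -ga)] al be ga ⟨?_, ?_, ?_, ?_, ?_⟩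
      · intro c
        fin_cases c
        · show (0 : ℝ) ≤ 1 - (-al) - (-be) - (-ga)
          linarith
        · show (0 : ℝ) ≤ 4 * (-al - -be)
          linarith
        · show (0 : ℝ) ≤ 3 * (-be + -ga - -al)
          linarith
        · show (0 : ℝ) ≤ 2 * (-be - -ga)
          linarith
      · rw [Fin.sum_univ_four]
        show (1 - (-al) - (-be) - (-ga)) + 4 * (-al - -be) + 3 * (-be + -ga - -al)
          + 2 * (-be - -ga) = 1
        ring
      · rw [Fin.sum_univ_four]
        show al = (1 - (-al) - (-be) - (-ga)) * (((0 : ℤ) : ℝ) / 96)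
          + 4 * (-al - -be) * (((-48 : ℤ) : ℝ) / 96)
          + 3 * (-be + -ga - -al) * (((-32 : ℤ) : ℝ) / 96) + 2 * (-be - -ga) * (((-48 : ℤ) : ℝ) / 96)
        push_cast
        ring
      · rw [Fin.sum_univ_four]
        show be = (1 - (-al) - (-be) - (-ga)) * (((0 : ℤ) : ℝ) / 96)
          + 4 * (-al - -be) * (((-24 : ℤ) : ℝ) / 96)
          + 3 * (-be + -ga - -al) * (((-32 : ℤ) : ℝ) / 96) + 2 * (-be - -ga) * (((-48 : ℤ) : ℝ) / 96)
        push_cast
        ring
      · rw [Fin.sum_univ_four]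
        show ga = (1 - (-al) - (-be) - (-ga)) * (((0 : ℤ) : ℝ) / 96)
          + 4 * (-al - -be) * (((-24 : ℤ) : ℝ) / 96)
          + 3 * (-be + -ga - -al) * (((-32 : ℤ) : ℝ) / 96) + 2 * (-be - -ga) * (((0 : ℤ) : ℝ) / 96)
        push_cast
        ring

/-- **The three root cells cover the two sectors.** -/
theorem sector_good (h0 : Good R0) (h1 : Good R1) (h2 : Good R2) : ∀ al be ga : ℝ,
    Pool.Agent.Helper24.LW.Sector al be ga → ∀ K : Set (Fin 3 → ℝ), LFree K →
      ¬ PosAt K (Mm al be ga) (100 / 507) :=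
  sector_goodAt (100 / 507) h0 h1 h2

end Pool.Agent.Helper28.LW
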